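import Mathlib

/-!
# LPECC codes with `e = w - 2`: the conjectured limit is wrong

For all `t ≥ 1`, `w ≥ 4` with `(t+1) w (w-1) < (w+t) (w+t-1)` there is a constant
`c > 1 / ((t+1) w (w-1))` with `C(n, t, w, w-2) ≥ c n²` for all large `n`.

The classes of the codes consist of all the `w`-subsets of `⌈(t+1)/2⌉` pairwise disjoint sets of
size `w + 1`.
-/

open Finset

namespace Pool.Agent.Results.MP_00ae1c_co.LimitFails

/-- `P` is an `(n,t,w,e)`-LPECC code with `b` classes; a word of `{0,1}^n` is given by its support,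
so that the weight is the cardinality and the Hamming distance of `x` and `y` is the cardinality
of the symmetric difference of the supports. -/
def IsLPECC (n t w e b : ℕ) (P : Fin b → Finset (Finset (Fin n))) : Prop :=
  (∀ i, (P i).Nonempty) ∧ (∀ i j, i ≠ j → Disjoint (P i) (P j)) ∧
  (∀ T : Finset (Fin n), T.card = t → ∀ i, ∃ x ∈ P i, Disjoint x T) ∧
  (∀ i, ∀ x ∈ P i, x.card ≤ w) ∧
  ∀ i j, i ≠ j → ∀ x ∈ P i, ∀ y ∈ P j, 2 * e + 1 ≤ (symmDiff x y).card

/-- `C(n,t,w,e)`: the largest number `b` of classes of an `(n,t,w,e)`-LPECC code. -/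
noncomputable def C (n t w e : ℕ) : ℕ := sSup {b | ∃ P, IsLPECC n t w e b P}

lemma bddAbove (n t w e : ℕ) : BddAbove {b | ∃ P, IsLPECC n t w e b P} := by
  refine ⟨Fintype.card (Finset (Fin n)), ?_⟩
  rintro b ⟨P, h1, h2, -⟩
  choose x hx using h1
  have hinj : Function.Injective x := by
    intro i j hij
    by_contra hne
    have := h2 i j hne
    rw [disjoint_left] at this
    exact this (hx i) (hij ▸ hx j)
  have := Fintype.card_le_of_injective x hinj
  simpa using this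

/-- families of `r`-tuples of disjoint `k`-sets; sets of different tuples share at most one
point -/
def Pack (α : Type) [DecidableEq α] (k r : ℕ) (I : Type) (f : I → Fin r → Finset α) : Prop :=
  (∀ c j, (f c j).card = k) ∧ (∀ c j j', j ≠ j' → Disjoint (f c j) (f c j')) ∧
  ∀ c c', c ≠ c' → ∀ j j', (f c j ∩ f c' j').card ≤ 1

/-- From packings to codes. -/
lemma code_of_pack {n t w r b : ℕ} (hw : 2 ≤ w) (ht : t < 2 * r) (f : Fin b → Fin r → Finset (Fin n))
    (hf : Pack (Fin n) (w + 1) r (Fin b) f) : ∃ P, IsLPECC n t w (w - 2) b P := by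
  obtain ⟨h1, h2, h3⟩ := hf
  have hr : 0 < r := by omega
  have hcard : ∀ i (x : Finset (Fin n)),
      x ∈ (univ : Finset (Fin r)).biUnion (fun j => powersetCard w (f i j)) → x.card = w := by
    intro i x hx
    obtain ⟨j, -, hj⟩ := mem_biUnion.1 hx
    exact (mem_powersetCard.1 hj).2
  have hinter : ∀ i i', i ≠ i' → ∀ x ∈ (univ : Finset (Fin r)).biUnion
      (fun j => powersetCard w (f i j)), ∀ y ∈ (univ : Finset (Fin r)).biUnion
      (fun j => powersetCard w (f i' j)), (x ∩ y).card ≤ 1 := by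
    intro i i' hne x hx y hy
    obtain ⟨j, -, hj⟩ := mem_biUnion.1 hx
    obtain ⟨j', -, hj'⟩ := mem_biUnion.1 hy
    exact (card_le_card (inter_subset_inter (mem_powersetCard.1 hj).1
      (mem_powersetCard.1 hj').1)).trans (h3 i i' hne j j')
  refine ⟨fun i => univ.biUnion (fun j => powersetCard w (f i j)), ?_, ?_, ?_, ?_, ?_⟩
  · intro i
    obtain ⟨x, hx1, hx2⟩ := exists_subset_card_eq (s := f i ⟨0, hr⟩) (n := w)
      (by rw [h1]; omega)
    exact ⟨x, mem_biUnion.2 ⟨⟨0, hr⟩, mem_univ _, mem_powersetCard.2 ⟨hx1, hx2⟩⟩⟩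
  · intro i i' hne
    rw [disjoint_left]
    intro x hx hx'
    have h4 := hinter i i' hne x hx x hx'
    rw [inter_self, hcard i x hx] at h4
    omega
  · intro T hT i
    -- some set of the tuple contains at most one element of `T`
    have hex : ∃ j, (f i j ∩ T).card ≤ 1 := by
      by_contra hcon
      push Not at hcon
      have h4 : 2 * r ≤ ∑ j : Fin r, (f i j ∩ T).card := by
        calc 2 * r = ∑ _j : Fin r, 2 := by simp [mul_comm]
          _ ≤ _ := sum_le_sum (fun j _ => hcon j)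
      have h5 : ∑ j : Fin r, (f i j ∩ T).card = ((univ : Finset (Fin r)).biUnion
          (fun j => f i j ∩ T)).card := by
        rw [card_biUnion]
        intro j _ j' _ hne
        show Disjoint _ _
        exact disjoint_of_subset_left inter_subset_left
          (disjoint_of_subset_right inter_subset_left (h2 i j j' hne))
      have h6 : ((univ : Finset (Fin r)).biUnion (fun j => f i j ∩ T)).card ≤ T.card := by
        apply card_le_card
        intro x hx
        obtain ⟨j, -, hj⟩ := mem_biUnion.1 hx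
        exact (mem_inter.1 hj).2
      omega
    obtain ⟨j, hj⟩ := hex
    have h4 : w ≤ (f i j \ T).card := by
      have := card_sdiff_add_card_inter (f i j) T
      rw [h1] at this
      omega
    obtain ⟨x, hx1, hx2⟩ := exists_subset_card_eq h4
    refine ⟨x, mem_biUnion.2 ⟨j, mem_univ _, mem_powersetCard.2
      ⟨hx1.trans sdiff_subset, hx2⟩⟩, ?_⟩
    exact disjoint_of_subset_left hx1 sdiff_disjoint
  · intro i x hx
    exact (hcard i x hx).le
  · intro i i' hne x hx y hy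
    have h4 := hinter i i' hne x hx y hy
    have h5 := hcard i x hx
    have h6 := hcard i' y hy
    have h7 : (symmDiff x y).card + 2 * (x ∩ y).card = x.card + y.card := by
      have a1 : (symmDiff x y).card = (x \ y).card + (y \ x).card := by
        rw [symmDiff_def, sup_eq_union, card_union_of_disjoint disjoint_sdiff_sdiff]
      have a2 := card_sdiff_add_card_inter x y
      have a3 := card_sdiff_add_card_inter y x
      rw [inter_comm y x] at a3
      omega
    omega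

/-- Transport of a packing. -/
lemma Pack.map {α β : Type} [DecidableEq α] [DecidableEq β] {k r : ℕ} {I : Type}
    {f : I → Fin r → Finset α} (hf : Pack α k r I f) (φ : α ↪ β) :
    Pack β k r I (fun c j => (f c j).map φ) := by
  obtain ⟨h1, h2, h3⟩ := hf
  refine ⟨fun c j => by rw [card_map]; exact h1 c j, fun c j j' hne => ?_, fun c c' hne j j' => ?_⟩
  · exact (disjoint_map φ).2 (h2 c j j' hne)
  · rw [← map_inter, card_map]
    exact h3 c c' hne j j'

/-- Reindexing. -/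
lemma Pack.reindex {α : Type} [DecidableEq α] {k r : ℕ} {I J : Type}
    {f : I → Fin r → Finset α} (hf : Pack α k r I f) (e : J ↪ I) :
    Pack α k r J (fun c j => f (e c) j) :=
  ⟨fun c j => hf.1 (e c) j, fun c j j' hne => hf.2.1 (e c) j j' hne,
    fun c c' hne j j' => hf.2.2 (e c) (e c') (fun h => hne (e.injective h)) j j'⟩

/-- the line `y = a x + b` -/
def line (k m : ℕ) (a b : ZMod m) : Finset (Fin k × ZMod m) :=
  univ.image (fun i : Fin k => (i, a * (i : ℕ) + b))

lemma mem_line {k m : ℕ} (a b : ZMod m) (i : Fin k) (y : ZMod m) :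
    (i, y) ∈ line k m a b ↔ y = a * (i : ℕ) + b := by
  simp only [line, mem_image, mem_univ, true_and, Prod.mk.injEq]
  constructor
  · rintro ⟨j, rfl, h⟩; exact h.symm
  · intro h; exact ⟨i, rfl, h.symm⟩

lemma card_line {k m : ℕ} (a b : ZMod m) : (line k m a b).card = k := by
  rw [line, card_image_of_injective _ (fun i j h => (Prod.ext_iff.1 h).1)]
  simp

lemma line_disjoint {k m : ℕ} (a : ZMod m) {b b' : ZMod m} (h : b ≠ b') :
    Disjoint (line k m a b) (line k m a b') := by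
  rw [disjoint_left]
  rintro ⟨i, y⟩ h1 h2
  rw [mem_line] at h1 h2
  rw [h1] at h2
  exact h (add_left_cancel h2)

lemma line_inter {k m : ℕ} (hm : ∀ d, 0 < d → d < k → Nat.Coprime d m) {a a' : ZMod m}
    (b b' : ZMod m) (h : a ≠ a') : (line k m a b ∩ line k m a' b').card ≤ 1 := by
  rw [card_le_one]
  rintro ⟨i, y⟩ hi ⟨j, z⟩ hj
  rw [mem_inter, mem_line, mem_line] at hi hj
  have key : ∀ i j : Fin k, (i : ℕ) < j → a * (i : ℕ) + b = a' * (i : ℕ) + b' →
      a * (j : ℕ) + b = a' * (j : ℕ) + b' → False := by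
    intro i j hij h1 h2
    have hcop := hm (j - i) (by omega) (by have := j.isLt; omega)
    have h3 : (a - a') * (((j : ℕ) - (i : ℕ) : ℕ) : ZMod m) = 0 := by
      rw [Nat.cast_sub hij.le]
      have : (a - a') * ((j : ℕ) - (i : ℕ) : ZMod m) = (a * (j : ℕ) + b - (a' * (j : ℕ) + b')) -
        (a * (i : ℕ) + b - (a' * (i : ℕ) + b')) := by ring
      rw [this, h1, h2]; ring
    have hu : IsUnit (((j : ℕ) - (i : ℕ) : ℕ) : ZMod m) := (ZMod.isUnit_iff_coprime _ _).2 hcop
    have h4 : a - a' = 0 := (hu.mul_left_eq_zero).1 h3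
    exact h (sub_eq_zero.1 h4)
  have hij : i = j := by
    rcases lt_trichotomy (i : ℕ) j with hlt | heq | hgt
    · exact (key i j hlt (hi.1.symm.trans hi.2) (hj.1.symm.trans hj.2)).elim
    · exact Fin.ext heq
    · exact (key j i hgt (hj.1.symm.trans hj.2) (hi.1.symm.trans hi.2)).elim
  subst hij
  rw [hi.1, hj.1]

/-- The recursive construction: a transversal design, and packings on its groups. -/
lemma pack_step {k r m : ℕ} (hr : 0 < r) (hm : ∀ d, 0 < d → d < k → Nat.Coprime d m)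
    [NeZero m] {J : Type} {g : J → Fin r → Finset (ZMod m)} (hg : Pack (ZMod m) k r J g)
    (hk : 2 ≤ k) :
    ∃ f, Pack (Fin k × ZMod m) k r ((ZMod m × Fin (m / r)) ⊕ (Fin k × J)) f := by
  classical
  -- the intercept of a line
  have hlt : ∀ (c : Fin (m / r)) (j : Fin r), (c : ℕ) * r + j < m := by
    intro c j
    have h1 : ((c : ℕ) + 1) * r ≤ (m / r) * r := Nat.mul_le_mul_right r c.isLt
    have h2 : (m / r) * r ≤ m := Nat.div_mul_le_self m r
    have h3 := j.isLt
    nlinarith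
  have hb : ∀ (c c' : Fin (m / r)) (j j' : Fin r), (c, j) ≠ (c', j') →
      (((c : ℕ) * r + j : ℕ) : ZMod m) ≠ (((c' : ℕ) * r + j' : ℕ) : ZMod m) := by
    intro c c' j j' hne h
    rw [ZMod.natCast_eq_natCast_iff'] at h
    rw [Nat.mod_eq_of_lt (hlt c j), Nat.mod_eq_of_lt (hlt c' j')] at h
    apply hne
    have e1 : (c : ℕ) = c' := by
      have h1 := congrArg (fun x => x / r) h
      rw [mul_comm, mul_comm (c' : ℕ), Nat.mul_add_div hr, Nat.mul_add_div hr,
        Nat.div_eq_of_lt j.isLt, Nat.div_eq_of_lt j'.isLt] at h1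
      simpa using h1
    have e2 : (j : ℕ) = j' := by
      rw [e1] at h; omega
    rw [Fin.ext e1, Fin.ext e2]
  let f : (ZMod m × Fin (m / r)) ⊕ (Fin k × J) → Fin r → Finset (Fin k × ZMod m) := fun c j =>
    match c with
    | Sum.inl (a, c) => line k m a (((c : ℕ) * r + j : ℕ) : ZMod m)
    | Sum.inr (i, c) => (g c j).map ⟨fun y => (i, y), fun _ _ h => (Prod.ext_iff.1 h).2⟩
  refine ⟨f, ?_, ?_, ?_⟩
  · rintro (⟨a, c⟩ | ⟨i, c⟩) j
    · exact card_line _ _
    · show ((g c j).map _).card = k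
      rw [card_map]; exact hg.1 c j
  · rintro (⟨a, c⟩ | ⟨i, c⟩) j j' hne
    · exact line_disjoint a (hb c c j j' (fun h => hne (Prod.ext_iff.1 h).2))
    · exact (disjoint_map _).2 (hg.2.1 c j j' hne)
  · -- a line and a set inside a group
    have hmix : ∀ (a b : ZMod m) (i : Fin k) (s : Finset (ZMod m)),
        (line k m a b ∩ s.map ⟨fun y => (i, y), fun _ _ h => (Prod.ext_iff.1 h).2⟩).card ≤ 1 := by
      intro a b i s
      rw [card_le_one]
      rintro ⟨i1, y1⟩ h1 ⟨i2, y2⟩ h2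
      rw [mem_inter, mem_map, mem_line] at h1 h2
      obtain ⟨e1, z1, -, g1⟩ := h1
      obtain ⟨e2, z2, -, g2⟩ := h2
      have q1 : i = i1 := (Prod.ext_iff.1 g1).1
      have q2 : i = i2 := (Prod.ext_iff.1 g2).1
      subst q1; subst q2
      rw [e1, e2]
    rintro (⟨a, c⟩ | ⟨i, c⟩) (⟨a', c'⟩ | ⟨i', c'⟩) hne j j'
    · by_cases ha : a = a'
      · subst ha
        have hcc : c ≠ c' := fun h => hne (by rw [h])
        have := line_disjoint (k := k) a (hb c c' j j' (fun h => hcc (Prod.ext_iff.1 h).1))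
        show (line k m a _ ∩ line k m a _).card ≤ 1
        rw [disjoint_iff_inter_eq_empty.1 this]
        simp
      · exact line_inter hm _ _ ha
    · exact hmix _ _ _ _
    · show (_ ∩ line k m a' _).card ≤ 1
      rw [inter_comm]
      exact hmix _ _ _ _
    · by_cases hi : i = i'
      · subst hi
        have hcc : c ≠ c' := fun h => hne (by rw [h])
        show ((g c j).map _ ∩ (g c' j').map _).card ≤ 1
        rw [← map_inter, card_map]
        exact hg.2.2 c c' hcc j j'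
      · have : Disjoint (f (Sum.inr (i, c)) j) (f (Sum.inr (i', c')) j') := by
          rw [disjoint_left]
          rintro ⟨i1, y1⟩ h1 h2
          obtain ⟨z1, -, g1⟩ := mem_map.1 h1
          obtain ⟨z2, -, g2⟩ := mem_map.1 h2
          have q1 : i = i1 := (Prod.ext_iff.1 g1).1
          have q2 : i' = i1 := (Prod.ext_iff.1 g2).1
          exact hi (q1.trans q2.symm)
        rw [disjoint_iff_inter_eq_empty.1 this]
        simp


/-- Two levels of the recursive construction. -/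
lemma two_level {k r m m' n : ℕ} (hr : 0 < r) (hk : 2 ≤ k)
    (hm : ∀ d, 0 < d → d < k → Nat.Coprime d m) (hm' : ∀ d, 0 < d → d < k → Nat.Coprime d m')
    (hm0 : 0 < m) (hm0' : 0 < m') (h1 : k * m' ≤ m) (h2 : k * m ≤ n) :
    ∃ f, Pack (Fin n) k r (Fin (m * (m / r) + k * (m' * (m' / r)))) f := by
  classical
  have : NeZero m := ⟨hm0.ne'⟩
  have : NeZero m' := ⟨hm0'.ne'⟩
  -- the empty packing
  have g0 : Pack (ZMod m') k r Empty (fun c _ => c.elim) :=
    ⟨fun c => c.elim, fun c => c.elim, fun c => c.elim⟩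
  obtain ⟨f1, hf1⟩ := pack_step hr hm' g0 hk
  have e1 : Nonempty (Fin k × ZMod m' ↪ ZMod m) := by
    apply Function.Embedding.nonempty_of_card_le
    rw [Fintype.card_prod, Fintype.card_fin, ZMod.card, ZMod.card]
    exact h1
  obtain ⟨φ1⟩ := e1
  obtain ⟨f2, hf2⟩ := pack_step hr hm (hf1.map φ1) hk
  have e2 : Nonempty (Fin k × ZMod m ↪ Fin n) := by
    apply Function.Embedding.nonempty_of_card_le
    rw [Fintype.card_prod, Fintype.card_fin, ZMod.card, Fintype.card_fin]
    exact h2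
  obtain ⟨φ2⟩ := e2
  have e3 : Nonempty (Fin (m * (m / r) + k * (m' * (m' / r))) ↪
      (ZMod m × Fin (m / r)) ⊕ (Fin k × ((ZMod m' × Fin (m' / r)) ⊕ (Fin k × Empty)))) := by
    apply Function.Embedding.nonempty_of_card_le
    simp only [Fintype.card_sum, Fintype.card_prod, Fintype.card_fin, ZMod.card,
      Fintype.card_eq_zero, mul_zero, add_zero]
    exact le_refl _
  obtain ⟨φ3⟩ := e3
  exact ⟨_, (hf2.map φ2).reindex φ3⟩

/-- A number close to `x / k` that is coprime to `1, ..., k - 1`. -/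
def hh (k x : ℕ) : ℕ := k.factorial * ((x / k - 1) / k.factorial) + 1

lemma hh_coprime (k x : ℕ) : ∀ d, 0 < d → d < k → Nat.Coprime d (hh k x) := by
  intro d hd hdk
  unfold hh
  have h1 : d ∣ k.factorial := Nat.dvd_factorial hd hdk.le
  obtain ⟨q, hq⟩ := h1
  rw [hq, mul_assoc]
  rw [Nat.coprime_mul_left_add_right]
  exact Nat.coprime_one_right d

lemma hh_le {k x : ℕ} (hk : 0 < k) (hx : k ≤ x) : k * hh k x ≤ x := by
  unfold hh
  have h1 : k.factorial * ((x / k - 1) / k.factorial) ≤ x / k - 1 := Nat.mul_div_le _ _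
  have h2 : 1 ≤ x / k := (Nat.one_le_div_iff hk).2 hx
  have h3 : k * (k.factorial * ((x / k - 1) / k.factorial) + 1) ≤ k * (x / k) :=
    Nat.mul_le_mul_left k (by omega)
  exact h3.trans (Nat.mul_div_le x k)

lemma hh_ge {k : ℕ} (x : ℕ) (hk : 0 < k) : (x : ℝ) / k - (k.factorial + 1) ≤ hh k x := by
  have h1 : x / k < hh k x + k.factorial := by
    unfold hh
    have h2 := Nat.lt_mul_div_succ (x / k - 1) (Nat.factorial_pos k)
    have h3 : k.factorial * ((x / k - 1) / k.factorial + 1) =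
      k.factorial * ((x / k - 1) / k.factorial) + k.factorial := by ring
    omega
  have h2 : x < k * (x / k + 1) := Nat.lt_mul_div_succ x hk
  have h3 : x < k * (hh k x + k.factorial + 1) :=
    lt_of_lt_of_le h2 (Nat.mul_le_mul_left k (by omega))
  have h4 : (x : ℝ) < k * (hh k x + k.factorial + 1) := by exact_mod_cast h3
  have hk' : (0 : ℝ) < k := by exact_mod_cast hk
  rw [sub_le_iff_le_add, div_le_iff₀ hk']
  nlinarith

/-- The lower bound. -/
lemma lower (t w r : ℕ) (hw : 2 ≤ w) (hr : 0 < r) (ht : t < 2 * r) (c : ℝ)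
    (hc : c < ((w : ℝ) + 2) / (r * (w + 1) ^ 3)) :
    ∀ᶠ n : ℕ in Filter.atTop, c * (n : ℝ) ^ 2 ≤ C n t w (w - 2) := by
  obtain ⟨k, hk⟩ : ∃ k, k = w + 1 := ⟨_, rfl⟩
  have hk0 : 0 < k := by omega
  have hkR : (0 : ℝ) < k := by exact_mod_cast hk0
  have hk1 : (1 : ℝ) ≤ k := by exact_mod_cast (by omega : 1 ≤ k)
  have hrR : (0 : ℝ) < r := by exact_mod_cast hr
  have hr1 : (1 : ℝ) ≤ r := by exact_mod_cast hr
  have hkw : (k : ℝ) = w + 1 := by rw [hk]; push_cast; ring
  obtain ⟨A, hA⟩ : ∃ A : ℝ, A = (k.factorial : ℝ) + 1 := ⟨_, rfl⟩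
  have hA0 : 0 < A := by rw [hA]; positivity
  -- the number of classes
  let m : ℕ → ℕ := fun n => hh k n
  let m' : ℕ → ℕ := fun n => hh k (m n)
  let b : ℕ → ℕ := fun n => m n * (m n / r) + k * (m' n * (m' n / r))
  have hL : ∀ n : ℕ, k ≤ n → k ≤ m n → b n ≤ C n t w (w - 2) := by
    intro n hn hmn
    obtain ⟨f, hf⟩ := two_level (n := n) hr (by omega : 2 ≤ k) (hh_coprime k n)
      (hh_coprime k (m n)) (by unfold hh; omega) (by unfold hh; omega)
      (hh_le hk0 hmn) (hh_le hk0 hn)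
    subst hk
    obtain ⟨P, hP⟩ := code_of_pack hw ht f hf
    exact le_csSup (bddAbove n t w (w - 2)) ⟨P, hP⟩
  -- estimates
  have hb : ∀ n : ℕ, k ≤ n → k ≤ m n → 2 * A * k ^ 2 ≤ n →
      ((k : ℝ) + 1) / (r * k ^ 3) * n ^ 2 - (6 * A + 1 + k) * n ≤ b n := by
    intro n hn hmn hnA
    have hnR : (0 : ℝ) ≤ n := by positivity
    have m1 : (n : ℝ) / k - A ≤ m n := by rw [hA]; exact hh_ge n hk0
    have m2 : (m n : ℝ) / k - A ≤ m' n := by rw [hA]; exact hh_ge (m n) hk0
    have m3 : (k : ℝ) * m n ≤ n := by exact_mod_cast hh_le hk0 hn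
    have m4 : (k : ℝ) * m' n ≤ m n := by exact_mod_cast hh_le hk0 hmn
    have m5 : (m n : ℝ) ≤ n := by nlinarith [Nat.cast_nonneg (α := ℝ) (m n)]
    have m6 : (m' n : ℝ) ≤ n := by nlinarith [Nat.cast_nonneg (α := ℝ) (m' n)]
    have d1 : ((m n : ℝ) / r - 1) ≤ (m n / r : ℕ) := by
      have h1 : m n < r * (m n / r + 1) := Nat.lt_mul_div_succ _ hr
      have h2 : (m n : ℝ) < r * ((m n / r : ℕ) + 1) := by exact_mod_cast h1
      rw [sub_le_iff_le_add, div_le_iff₀ hrR]; nlinarith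
    have d2 : ((m' n : ℝ) / r - 1) ≤ (m' n / r : ℕ) := by
      have h1 : m' n < r * (m' n / r + 1) := Nat.lt_mul_div_succ _ hr
      have h2 : (m' n : ℝ) < r * ((m' n / r : ℕ) + 1) := by exact_mod_cast h1
      rw [sub_le_iff_le_add, div_le_iff₀ hrR]; nlinarith
    have b1 : (m n : ℝ) * ((m n : ℝ) / r - 1) + k * ((m' n : ℝ) * ((m' n : ℝ) / r - 1)) ≤ b n := by
      have h1 : (m n : ℝ) * ((m n : ℝ) / r - 1) ≤ m n * (m n / r : ℕ) :=
        mul_le_mul_of_nonneg_left d1 (by positivity)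
      have h2 : (m' n : ℝ) * ((m' n : ℝ) / r - 1) ≤ m' n * (m' n / r : ℕ) :=
        mul_le_mul_of_nonneg_left d2 (by positivity)
      have h3 : (k : ℝ) * ((m' n : ℝ) * ((m' n : ℝ) / r - 1)) ≤ k * (m' n * (m' n / r : ℕ)) :=
        mul_le_mul_of_nonneg_left h2 hkR.le
      have h4 : (b n : ℝ) = m n * (m n / r : ℕ) + k * (m' n * (m' n / r : ℕ)) := by
        simp only [b]; push_cast; ring
      rw [h4]; linarith
    -- squares
    have hnk : A * k ≤ n := by nlinarith [mul_pos hA0 hkR]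
    have s0 : 0 ≤ (n : ℝ) / k - A := by
      rw [sub_nonneg, le_div_iff₀ hkR]; exact hnk
    have s1 : (n : ℝ) ^ 2 / k ^ 2 - 2 * A * n ≤ (m n : ℝ) ^ 2 := by
      have h1 : ((n : ℝ) / k - A) ^ 2 ≤ (m n : ℝ) ^ 2 := pow_le_pow_left₀ s0 m1 2
      have h2 : ((n : ℝ) / k - A) ^ 2 = (n : ℝ) ^ 2 / k ^ 2 - 2 * A * (n / k) + A ^ 2 := by
        field_simp
        ring
      have h3 : (n : ℝ) / k ≤ n := div_le_self hnR hk1
      have h4 : 2 * A * ((n : ℝ) / k) ≤ 2 * A * n := mul_le_mul_of_nonneg_left h3 (by positivity)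
      rw [h2] at h1
      linarith [sq_nonneg A]
    have m7 : (n : ℝ) / k ^ 2 - 2 * A ≤ m' n := by
      have h1 : ((n : ℝ) / k - A) / k ≤ (m n : ℝ) / k := div_le_div_of_nonneg_right m1 hkR.le
      have h2 : ((n : ℝ) / k - A) / k = (n : ℝ) / k ^ 2 - A / k := by field_simp
      have h3 : A / k ≤ A := div_le_self hA0.le hk1
      linarith
    have s2' : 0 ≤ (n : ℝ) / k ^ 2 - 2 * A := by
      rw [sub_nonneg, le_div_iff₀ (by positivity)]; exact hnA
    have s2 : (n : ℝ) ^ 2 / k ^ 4 - 4 * A * n / k ≤ (m' n : ℝ) ^ 2 := by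
      have h1 : ((n : ℝ) / k ^ 2 - 2 * A) ^ 2 ≤ (m' n : ℝ) ^ 2 := pow_le_pow_left₀ s2' m7 2
      have h2 : ((n : ℝ) / k ^ 2 - 2 * A) ^ 2 =
          (n : ℝ) ^ 2 / k ^ 4 - 4 * A * n / k ^ 2 + 4 * A ^ 2 := by
        field_simp
        ring
      have h3 : 4 * A * n / k ^ 2 ≤ 4 * A * n / k := by
        apply div_le_div_of_nonneg_left (by positivity) hkR
        rw [sq]
        exact le_mul_of_one_le_left hkR.le hk1
      rw [h2] at h1
      linarith [sq_nonneg A]
    have s3 : (n : ℝ) ^ 2 / k ^ 3 - 4 * A * n ≤ k * (m' n : ℝ) ^ 2 := by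
      have h1 := mul_le_mul_of_nonneg_left s2 hkR.le
      have h2 : (k : ℝ) * ((n : ℝ) ^ 2 / k ^ 4 - 4 * A * n / k) =
          (n : ℝ) ^ 2 / k ^ 3 - 4 * A * n := by
        field_simp
      linarith
    have s4 : ((k : ℝ) + 1) / k ^ 3 * n ^ 2 - 6 * A * n ≤ (m n : ℝ) ^ 2 + k * (m' n : ℝ) ^ 2 := by
      have h1 : ((k : ℝ) + 1) / k ^ 3 * n ^ 2 = (n : ℝ) ^ 2 / k ^ 2 + (n : ℝ) ^ 2 / k ^ 3 := by
        field_simp
      rw [h1]; linarith
    have s5 : (((k : ℝ) + 1) / k ^ 3 * n ^ 2 - 6 * A * n) / r ≤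
        ((m n : ℝ) ^ 2 + k * (m' n : ℝ) ^ 2) / r := div_le_div_of_nonneg_right s4 hrR.le
    have s6 : (((k : ℝ) + 1) / k ^ 3 * n ^ 2 - 6 * A * n) / r =
        ((k : ℝ) + 1) / (r * k ^ 3) * n ^ 2 - 6 * A * n / r := by
      field_simp
    have s7 : 6 * A * n / r ≤ 6 * A * n := div_le_self (by positivity) hr1
    have s8 : (m n : ℝ) * ((m n : ℝ) / r - 1) + k * ((m' n : ℝ) * ((m' n : ℝ) / r - 1)) =
        ((m n : ℝ) ^ 2 + k * (m' n : ℝ) ^ 2) / r - m n - k * m' n := by
      field_simp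
      ring
    have s9 : (k : ℝ) * m' n ≤ k * n := mul_le_mul_of_nonneg_left m6 hkR.le
    rw [s8] at b1
    rw [s6] at s5
    have s10 : (6 * A + 1 + (k : ℝ)) * n = 6 * A * n + n + k * n := by ring
    rw [s10]
    linarith
  -- conclusion
  have hc' : c < ((k : ℝ) + 1) / (r * k ^ 3) := by
    rw [hkw]
    have : (w : ℝ) + 1 + 1 = w + 2 := by ring
    rw [this]; exact hc
  obtain ⟨N, hN⟩ := exists_nat_gt ((6 * A + 1 + k) / (((k : ℝ) + 1) / (r * k ^ 3) - c))
  obtain ⟨N2, hN2⟩ := exists_nat_gt (max (2 * A * k ^ 2) (k * (k + A)))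
  filter_upwards [Filter.eventually_ge_atTop (max N (max N2 k))] with n hn
  have n1 : N ≤ n := (le_max_left _ _).trans hn
  have n2 : N2 ≤ n := ((le_max_left _ _).trans (le_max_right _ _)).trans hn
  have n3 : k ≤ n := ((le_max_right _ _).trans (le_max_right _ _)).trans hn
  have n2R : (N2 : ℝ) ≤ n := by exact_mod_cast n2
  have n4 : 2 * A * k ^ 2 ≤ n := ((le_max_left _ _).trans hN2.le).trans n2R
  have n5 : k * (k + A) ≤ n := ((le_max_right _ _).trans hN2.le).trans n2R
  have hmn : k ≤ m n := by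
    have h1 : (n : ℝ) / k - A ≤ m n := by rw [hA]; exact hh_ge n hk0
    have h2 : (k : ℝ) ≤ (n : ℝ) / k - A := by
      rw [le_sub_iff_add_le, le_div_iff₀ hkR]; linarith
    exact_mod_cast h2.trans h1
  have h1 := hb n n3 hmn n4
  have h2 : (b n : ℝ) ≤ C n t w (w - 2) := by exact_mod_cast hL n n3 hmn
  have h3 : (6 * A + 1 + k) < (((k : ℝ) + 1) / (r * k ^ 3) - c) * n := by
    have h4 : (N : ℝ) ≤ n := by exact_mod_cast n1
    have h5 : 0 < ((k : ℝ) + 1) / (r * k ^ 3) - c := by linarith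
    have h6 := (div_lt_iff₀ h5).1 (lt_of_lt_of_le hN h4)
    linarith
  have h4 : 0 ≤ (n : ℝ) := by positivity
  have h5 : (6 * A + 1 + k) * n ≤ (((k : ℝ) + 1) / (r * k ^ 3) - c) * n * n :=
    mul_le_mul_of_nonneg_right h3.le h4
  have h6 : (((k : ℝ) + 1) / (r * k ^ 3) - c) * n * n =
    ((k : ℝ) + 1) / (r * k ^ 3) * n ^ 2 - c * n ^ 2 := by ring
  rw [h6] at h5
  linarith

/-- the arithmetic -/
lemma arith (t w : ℕ) (ht : 1 ≤ t) (hw : 4 ≤ w)
    (h : (t + 1) * w * (w - 1) < (w + t) * (w + t - 1)) :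
    ((t + 2) / 2) * (w + 1) ^ 3 < (t + 1) * w * (w - 1) * (w + 2) := by
  obtain ⟨u, rfl⟩ := Nat.exists_eq_add_of_le hw
  have e1 : 4 + u - 1 = u + 3 := by omega
  have e2 : 4 + u + t - 1 = u + t + 3 := by omega
  rw [e1, e2] at h
  rw [e1]
  -- `t ≥ w² - 3 w + 2`
  have h1 : (u + 2) * (u + 3) ≤ t := by
    by_contra hcon
    push Not at hcon
    have h2 : t + 1 ≤ (u + 2) * (u + 3) := hcon
    nlinarith [mul_le_mul h2 (le_refl t) (Nat.zero_le _) (Nat.zero_le _)]
  have h3 : 2 * ((t + 2) / 2) ≤ t + 2 := Nat.mul_div_le _ _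
  have h6 : 6 ≤ t := le_trans (by nlinarith [Nat.zero_le (u ^ 2), Nat.zero_le u]) h1
  have h4 : (t + 2) * (4 + u + 1) ^ 3 < 2 * ((t + 1) * (4 + u) * (u + 3) * (4 + u + 2)) := by
    nlinarith [Nat.mul_le_mul h6 (le_refl (u ^ 3 + 11 * u ^ 2 + 33 * u + 19)),
      Nat.zero_le (u ^ 3), Nat.zero_le (u ^ 2), Nat.zero_le u]
  have h5 : 2 * ((t + 2) / 2) * (4 + u + 1) ^ 3 ≤ (t + 2) * (4 + u + 1) ^ 3 :=
    Nat.mul_le_mul_right _ h3
  nlinarith

/-- **The conjectured asymptotic size is wrong for all `(t, w)` in the range.** Let `t ≥ 1`,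
`w ≥ 4` and `(t+1) w (w-1) < (w+t) (w+t-1)`. Then for some `c > 1 / ((t+1) w (w-1))` we have
`C(n,t,w,w-2) ≥ c n²` for all large `n`. In particular `C(n,t,w,w-2) / n²` does not tend to
`1 / ((t+1) w (w-1))`, and `C(n,t,w,w-2) = ⌊n (n+1) / ((t+1) w (w-1))⌋` holds only for finitely
many `n`. -/
theorem result (t w : ℕ) (ht : 1 ≤ t) (hw : 4 ≤ w)
    (h : (t + 1) * w * (w - 1) < (w + t) * (w + t - 1)) :
    (∃ c : ℝ, 1 / (((t : ℝ) + 1) * w * (w - 1)) < c ∧
      ∀ᶠ n : ℕ in Filter.atTop, c * (n : ℝ) ^ 2 ≤ C n t w (w - 2)) ∧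
    ¬ Filter.Tendsto (fun n : ℕ => (C n t w (w - 2) : ℝ) / (n : ℝ) ^ 2) Filter.atTop
      (nhds (1 / (((t : ℝ) + 1) * w * (w - 1)))) ∧
    {n : ℕ | C n t w (w - 2) = n * (n + 1) / ((t + 1) * w * (w - 1))}.Finite := by
  have hw1 : (1 : ℝ) < w := by exact_mod_cast (by omega : 1 < w)
  have hcast : ((w - 1 : ℕ) : ℝ) = w - 1 := by rw [Nat.cast_sub (by omega)]; simp
  have hD : (0 : ℝ) < ((t : ℝ) + 1) * w * (w - 1) := by
    have : (0 : ℝ) < (w : ℝ) - 1 := by linarith
    positivity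
  have hr : 0 < (t + 2) / 2 := by omega
  have hrR : (0 : ℝ) < ((t + 2) / 2 : ℕ) := by exact_mod_cast hr
  have hlt : 1 / (((t : ℝ) + 1) * w * (w - 1)) <
      ((w : ℝ) + 2) / (((t + 2) / 2 : ℕ) * (w + 1) ^ 3) := by
    rw [div_lt_div_iff₀ hD (by positivity)]
    have h1 := arith t w ht hw h
    have h2 : ((((t + 2) / 2) * (w + 1) ^ 3 : ℕ) : ℝ) <
      (((t + 1) * w * (w - 1) * (w + 2) : ℕ) : ℝ) := by exact_mod_cast h1
    push_cast [hcast] at h2
    push_cast
    nlinarith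
  obtain ⟨c, hc1, hc2⟩ := exists_between hlt
  have hlow := lower t w ((t + 2) / 2) (by omega) hr (by omega) c hc2
  refine ⟨⟨c, hc1, hlow⟩, ?_, ?_⟩
  · intro hT
    have h1 : ∀ᶠ n : ℕ in Filter.atTop, c ≤ (C n t w (w - 2) : ℝ) / (n : ℝ) ^ 2 := by
      filter_upwards [hlow, Filter.eventually_gt_atTop 0] with n hn hn0
      have : (0 : ℝ) < (n : ℝ) ^ 2 := by
        have : (0 : ℝ) < n := by exact_mod_cast hn0
        positivity
      rw [le_div_iff₀ this]
      exact hn
    have h2 := ge_of_tendsto hT h1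
    linarith
  · -- for large `n` the number is too large
    have h0 : 0 < c - 1 / (((t : ℝ) + 1) * w * (w - 1)) := by linarith
    obtain ⟨N, hN⟩ := exists_nat_gt ((1 / (((t : ℝ) + 1) * w * (w - 1))) /
      (c - 1 / (((t : ℝ) + 1) * w * (w - 1))))
    have h1 : ∀ᶠ n : ℕ in Filter.atTop,
        C n t w (w - 2) ≠ n * (n + 1) / ((t + 1) * w * (w - 1)) := by
      filter_upwards [hlow, Filter.eventually_gt_atTop N] with n hn hnN heq
      rw [heq] at hn
      have h2 : ((n * (n + 1) / ((t + 1) * w * (w - 1)) : ℕ) : ℝ) ≤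
          ((n * (n + 1) : ℕ) : ℝ) / (((t + 1) * w * (w - 1) : ℕ) : ℝ) := Nat.cast_div_le
      push_cast [hcast] at h2
      have h3 : (N : ℝ) < n := by exact_mod_cast hnN
      have h4 := lt_trans hN h3
      rw [div_lt_iff₀ h0] at h4
      have hn0 : (0 : ℝ) < n := lt_of_le_of_lt (Nat.cast_nonneg N) h3
      have h5 : c * (n : ℝ) ^ 2 ≤ n * (n + 1) / ((t + 1) * w * (w - 1)) := hn.trans h2
      have h6 : (n : ℝ) * (n + 1) / ((t + 1) * w * (w - 1)) =
          (1 / (((t : ℝ) + 1) * w * (w - 1))) * n ^ 2 + (1 / (((t : ℝ) + 1) * w * (w - 1))) * n := by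
        ring
      rw [h6] at h5
      nlinarith
    obtain ⟨N', hN'⟩ := Filter.eventually_atTop.1 h1
    apply (Set.finite_lt_nat N').subset
    intro n hn
    by_contra hcon
    exact hN' n (not_lt.1 hcon) hn

end Pool.Agent.Results.MP_00ae1c_co.LimitFails
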